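import Mathlib

/-!
# `p`-adic points near the cusps (brick DIS), Mathlib part
-/

set_option autoImplicit false

namespace Pool.Agent.K3h97.FC.DIS

section

variable {p : ℕ} [Fact p.Prime]

lemma norm_le_inv {x : ℚ_[p]} (h : ‖x‖ < 1) : ‖x‖ ≤ (p : ℝ)⁻¹ := by
  have h1 := (Padic.norm_le_pow_iff_norm_lt_pow_add_one x (-1)).2 (by simpa using h)
  simpa using h1

lemma no_sqrt (w : ℚ_[p]) (h : ‖w ^ 2‖ = (p : ℝ)⁻¹) : False := by
  have hp1 : (1 : ℝ) < p := by exact_mod_cast (Fact.out : p.Prime).one_lt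
  have hw : w ≠ 0 := by
    rintro rfl
    rw [zero_pow two_ne_zero, norm_zero] at h
    have : (0 : ℝ) < (p : ℝ)⁻¹ := by positivity
    exact this.ne h
  rw [norm_pow, Padic.norm_eq_zpow_neg_valuation hw, ← zpow_natCast, ← zpow_mul,
    ← zpow_neg_one] at h
  have h2 := zpow_right_injective₀ (by positivity) hp1.ne' h
  push_cast at h2
  omega

lemma norm_int_eq_one {a : ℤ} (ha : ¬ (p : ℤ) ∣ a) : ‖(a : ℚ_[p])‖ = 1 := by
  rcases lt_or_eq_of_le (Padic.norm_int_le_one (p := p) a) with h | h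
  · exact absurd (Padic.norm_intCast_lt_one_iff.1 h) ha
  · exact h

/-- `w ^ 2 = p a ^ 2 u + r` with units `a`, `u` and a small `r` is impossible -/
lemma key (a : ℤ) (ha : ¬ (p : ℤ) ∣ a) (w u r : ℚ_[p]) (hu : ‖u‖ = 1) (hr : ‖r‖ < (p : ℝ)⁻¹)
    (h : w ^ 2 = p * a ^ 2 * u + r) : False := by
  have h1 : ‖(p : ℚ_[p]) * (a : ℚ_[p]) ^ 2 * u‖ = (p : ℝ)⁻¹ := by
    rw [norm_mul, norm_mul, norm_pow, norm_int_eq_one ha, hu, Padic.norm_p]
    ring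
  apply no_sqrt w
  rw [h, Padic.add_eq_max_of_ne (by rw [h1]; exact hr.ne'), h1, max_eq_left hr.le]

lemma small {x : ℚ_[p]} (hx : ‖x‖ < 1) : ‖x ^ 3‖ < (p : ℝ)⁻¹ := by
  have hp1 : (1 : ℝ) < p := by exact_mod_cast (Fact.out : p.Prime).one_lt
  have h0 := norm_nonneg x
  have h1 := norm_le_inv hx
  have h2 : (0 : ℝ) < (p : ℝ)⁻¹ := by positivity
  have h3 : (p : ℝ)⁻¹ < 1 := inv_lt_one_of_one_lt₀ hp1
  rw [norm_pow]
  calc ‖x‖ ^ 3 ≤ ((p : ℝ)⁻¹) ^ 3 := by gcongr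
    _ < (p : ℝ)⁻¹ := by
        have : ((p : ℝ)⁻¹) ^ 3 = (p : ℝ)⁻¹ * ((p : ℝ)⁻¹ * (p : ℝ)⁻¹) := by ring
        rw [this]
        have h4 : (p : ℝ)⁻¹ * (p : ℝ)⁻¹ < 1 := by nlinarith
        nlinarith

lemma norm_zero_of {x y z : ℚ_[p]} (h : x ^ p + y ^ p + z ^ p = 0) (hx : ‖x‖ < 1)
    (hy : ‖y‖ < 1) : ‖z‖ < 1 := by
  have hp0 : p ≠ 0 := (Fact.out : p.Prime).ne_zero
  have h1 : z ^ p = -(x ^ p + y ^ p) := by linear_combination h
  have h2 : ‖z ^ p‖ < 1 := by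
    rw [h1, norm_neg]
    refine lt_of_le_of_lt (Padic.nonarchimedean _ _) (max_lt ?_ ?_)
    · rw [norm_pow]; exact pow_lt_one₀ (norm_nonneg _) hx hp0
    · rw [norm_pow]; exact pow_lt_one₀ (norm_nonneg _) hy hp0
  rw [norm_pow] at h2
  by_contra h3
  push Not at h3
  exact absurd (one_le_pow₀ h3) (not_le.2 h2)

lemma mod_p (hp : p % 4 = 3) (A B : ℤ) (X Y Z W : ℤ_[p]) (hX : ‖X‖ = 1) (hZ : ‖Z‖ < 1)
    (h : X ^ p + Y ^ p + Z ^ p = 0)
    (hw : W ^ 2 = X ^ 3 * Y ^ 3 + p * A ^ 2 * (Y ^ 3 * Z ^ 3) - p * B ^ 2 * (Z ^ 3 * X ^ 3)) :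
    False := by
  have hp0 : p ≠ 0 := (Fact.out : p.Prime).ne_zero
  set f : ℤ_[p] →+* ZMod p := PadicInt.toZMod
  have hfZ : f Z = 0 := by
    have : Z ∈ RingHom.ker f := by
      rw [PadicInt.ker_toZMod, IsLocalRing.mem_maximalIdeal]
      exact PadicInt.mem_nonunits.2 hZ
    exact this
  have hfX : f X ≠ 0 := by
    intro h0
    have : X ∈ RingHom.ker f := h0
    rw [PadicInt.ker_toZMod, IsLocalRing.mem_maximalIdeal] at this
    have := PadicInt.mem_nonunits.1 this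
    rw [hX] at this
    exact lt_irrefl _ this
  have h1 := congrArg f h
  rw [map_add, map_add, map_pow, map_pow, map_pow, map_zero, hfZ, ZMod.pow_card, ZMod.pow_card,
    zero_pow hp0, add_zero] at h1
  have h2 := congrArg f hw
  simp only [map_sub, map_add, map_mul, map_pow, hfZ, map_natCast, CharP.cast_eq_zero] at h2
  have hY : f Y = - f X := by linear_combination h1
  rw [hY] at h2
  have h3 : IsSquare (-1 : ZMod p) := by
    refine ⟨f W / (f X) ^ 3, ?_⟩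
    have h4 : (f W) ^ 2 = - ((f X) ^ 3) ^ 2 := by rw [h2]; ring
    rw [div_mul_div_comm, ← sq, ← sq, h4]
    field_simp
  exact (ZMod.exists_sq_eq_neg_one_iff.1 h3) hp

end

theorem dis (p : ℕ) [Fact p.Prime] (hp : p % 4 = 3) (a b : ℤ) (ha : ¬ (p : ℤ) ∣ a)
    (hb : ¬ (p : ℤ) ∣ b) (x y z w : ℚ_[p]) (hx : ‖x‖ ≤ 1) (hy : ‖y‖ ≤ 1) (hz : ‖z‖ ≤ 1)
    (h1 : ‖x‖ = 1 ∨ ‖y‖ = 1 ∨ ‖z‖ = 1) (h : x ^ p + y ^ p + z ^ p = 0)
    (hw : w ^ 2 = x ^ 3 * y ^ 3 + p * a ^ 2 * (y ^ 3 * z ^ 3) - p * b ^ 2 * (z ^ 3 * x ^ 3)) :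
    ‖x‖ = 1 ∧ ‖y‖ = 1 ∧ ‖z‖ = 1 := by
  have hpi : (0 : ℝ) < (p : ℝ)⁻¹ := by
    have : 0 < p := (Fact.out : p.Prime).pos
    positivity
  have hp1 : ‖(p : ℚ_[p])‖ ≤ 1 := Padic.norm_p_lt_one.le
  have pnorm : ∀ c : ℤ, ‖(c : ℚ_[p]) ^ 2‖ ≤ 1 := fun c => by
    rw [norm_pow]; exact pow_le_one₀ (norm_nonneg _) (Padic.norm_int_le_one c)
  have cube : ∀ t : ℚ_[p], ‖t‖ ≤ 1 → ‖t ^ 3‖ ≤ 1 := fun t ht => by
    rw [norm_pow]; exact pow_le_one₀ (norm_nonneg _) ht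
  have cube1 : ∀ t : ℚ_[p], ‖t‖ = 1 → ‖t ^ 3‖ = 1 := fun t ht => by
    rw [norm_pow, ht, one_pow]
  -- a product with a small cube is small
  have sm : ∀ c t : ℚ_[p], ‖c‖ ≤ 1 → ‖t‖ < 1 → ‖c * t ^ 3‖ < (p : ℝ)⁻¹ := fun c t hc ht => by
    rw [norm_mul]
    have := small ht
    calc ‖c‖ * ‖t ^ 3‖ ≤ 1 * ‖t ^ 3‖ := by gcongr
      _ < _ := by rwa [one_mul]
  have e1 : ‖x‖ = 1 := by
    by_contra hne
    have hx1 : ‖x‖ < 1 := lt_of_le_of_ne hx hne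
    have hy1 : ‖y‖ = 1 := by
      by_contra hne'
      have hy1 : ‖y‖ < 1 := lt_of_le_of_ne hy hne'
      have hz1 := norm_zero_of h hx1 hy1
      rcases h1 with h1 | h1 | h1
      · exact hne h1
      · exact hne' h1
      · exact hz1.ne h1
    have hz1 : ‖z‖ = 1 := by
      by_contra hne'
      have hz1 : ‖z‖ < 1 := lt_of_le_of_ne hz hne'
      have hy2 : ‖y‖ < 1 := norm_zero_of (x := x) (y := z) (z := y) (by linear_combination h)
        hx1 hz1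
      exact hy2.ne hy1
    refine key a ha w (y ^ 3 * z ^ 3)
      (y ^ 3 * x ^ 3 + (-(p * b ^ 2 * z ^ 3)) * x ^ 3) ?_ ?_ ?_
    · rw [norm_mul, cube1 y hy1, cube1 z hz1, one_mul]
    · refine lt_of_le_of_lt (Padic.nonarchimedean _ _) (max_lt (sm _ _ (cube y hy) hx1)
        (sm _ _ ?_ hx1))
      rw [norm_neg, norm_mul, norm_mul]
      exact mul_le_one₀ (mul_le_one₀ hp1 (norm_nonneg _) (pnorm b)) (norm_nonneg _) (cube z hz)
    · rw [hw]; ring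
  have e2 : ‖y‖ = 1 := by
    by_contra hne
    have hy1 : ‖y‖ < 1 := lt_of_le_of_ne hy hne
    have hz1 : ‖z‖ = 1 := by
      by_contra hne'
      have hz1 : ‖z‖ < 1 := lt_of_le_of_ne hz hne'
      have hx2 : ‖x‖ < 1 := norm_zero_of (x := y) (y := z) (z := x) (by linear_combination h)
        hy1 hz1
      exact hx2.ne e1
    refine key b hb w (-(z ^ 3 * x ^ 3))
      (x ^ 3 * y ^ 3 + ((p * a ^ 2 * z ^ 3)) * y ^ 3) ?_ ?_ ?_
    · rw [norm_neg, norm_mul, cube1 x e1, cube1 z hz1, one_mul]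
    · refine lt_of_le_of_lt (Padic.nonarchimedean _ _) (max_lt (sm _ _ (cube x hx) hy1)
        (sm _ _ ?_ hy1))
      rw [norm_mul, norm_mul]
      exact mul_le_one₀ (mul_le_one₀ hp1 (norm_nonneg _) (pnorm a)) (norm_nonneg _) (cube z hz)
    · rw [hw]; ring
  refine ⟨e1, e2, ?_⟩
  by_contra hne
  have hz1 : ‖z‖ < 1 := lt_of_le_of_ne hz hne
  have hw1 : ‖w‖ ≤ 1 := by
    have h2 : ‖w ^ 2‖ ≤ 1 := by
      rw [hw, sub_eq_add_neg]
      refine (Padic.nonarchimedean _ _).trans (max_le ((Padic.nonarchimedean _ _).trans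
        (max_le ?_ ?_)) ?_)
      · rw [norm_mul]; exact mul_le_one₀ (cube x hx) (norm_nonneg _) (cube y hy)
      · rw [norm_mul, norm_mul, norm_mul]
        exact mul_le_one₀ (mul_le_one₀ hp1 (norm_nonneg _) (pnorm a))
          (mul_nonneg (norm_nonneg _) (norm_nonneg _))
          (mul_le_one₀ (cube y hy) (norm_nonneg _) (cube z hz))
      · rw [norm_neg, norm_mul, norm_mul, norm_mul]
        exact mul_le_one₀ (mul_le_one₀ hp1 (norm_nonneg _) (pnorm b))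
          (mul_nonneg (norm_nonneg _) (norm_nonneg _))
          (mul_le_one₀ (cube z hz) (norm_nonneg _) (cube x hx))
    rw [norm_pow] at h2
    exact (pow_le_one_iff_of_nonneg (norm_nonneg _) two_ne_zero).1 h2
  refine mod_p (p := p) hp a b ⟨x, hx⟩ ⟨y, hy⟩ ⟨z, hz⟩ ⟨w, hw1⟩ e1 hz1 ?_ ?_
  · apply Subtype.ext
    push_cast
    exact h
  · apply Subtype.ext
    push_cast
    exact hw

end Pool.Agent.K3h97.FC.DIS
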