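import Mathlib

/-!
# Weak approximation for two primes (brick WA), Mathlib part
-/

set_option autoImplicit false

namespace Pool.Agent.K3h97.FC.WA

open Filter Topology

lemma ev (p q : ℕ) [Fact p.Prime] [Fact q.Prime] (hpq : p ≠ q) (c : ℚ_[p]) (ε : ℝ) (hε : 0 < ε) :
    ∀ᶠ n : ℕ in atTop, ‖c * ((p : ℚ_[p]) ^ n / ((p : ℚ_[p]) ^ n + (q : ℚ_[p]) ^ n))‖ < ε := by
  have hq : ‖(q : ℚ_[p])‖ = 1 := by
    have h := (Padic.norm_natCast_eq_one_iff (p := p) (n := q)).2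
      ((Nat.coprime_primes Fact.out Fact.out).2 hpq)
    exact h
  have hp : ‖(p : ℚ_[p])‖ < 1 := Padic.norm_p_lt_one
  have ht : Tendsto (fun n : ℕ => ‖c‖ * ‖(p : ℚ_[p])‖ ^ n) atTop (𝓝 (‖c‖ * 0)) :=
    (tendsto_pow_atTop_nhds_zero_of_lt_one (norm_nonneg _) hp).const_mul _
  rw [mul_zero] at ht
  filter_upwards [ht.eventually (gt_mem_nhds hε), eventually_ge_atTop 1] with n hn hn1
  have hden : ‖(p : ℚ_[p]) ^ n + (q : ℚ_[p]) ^ n‖ = 1 := by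
    have h1 : ‖(p : ℚ_[p]) ^ n‖ < 1 := by
      rw [norm_pow]; exact pow_lt_one₀ (norm_nonneg _) hp (by omega)
    have h2 : ‖(q : ℚ_[p]) ^ n‖ = 1 := by rw [norm_pow, hq, one_pow]
    rw [Padic.add_eq_max_of_ne (by rw [h2]; exact h1.ne), h2, max_eq_right h1.le]
  rw [norm_mul, norm_div, hden, div_one, norm_pow]
  exact hn

theorem wa (p q : ℕ) [Fact p.Prime] [Fact q.Prime] (hpq : p ≠ q) (a : ℚ_[p]) (b : ℚ_[q])
    (ε : ℝ) (hε : 0 < ε) : ∃ t : ℚ, ‖(t : ℚ_[p]) - a‖ < ε ∧ ‖(t : ℚ_[q]) - b‖ < ε := by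
  obtain ⟨α, hα⟩ := Padic.rat_dense p a hε
  obtain ⟨β, hβ⟩ := Padic.rat_dense q b hε
  obtain ⟨n, hn1, hn2⟩ := ((ev p q hpq ((β : ℚ_[p]) - α) ε hε).and
    (ev q p hpq.symm ((α : ℚ_[q]) - β) ε hε)).exists
  have hp0 : 0 < p := (Fact.out : p.Prime).pos
  have hq0 : 0 < q := (Fact.out : q.Prime).pos
  refine ⟨α + (β - α) * ((p : ℚ) ^ n / ((p : ℚ) ^ n + (q : ℚ) ^ n)), ?_, ?_⟩
  · have h : ((α + (β - α) * ((p : ℚ) ^ n / ((p : ℚ) ^ n + (q : ℚ) ^ n)) : ℚ) : ℚ_[p]) - a =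
        -(a - (α : ℚ_[p])) +
        ((β : ℚ_[p]) - α) * ((p : ℚ_[p]) ^ n / ((p : ℚ_[p]) ^ n + (q : ℚ_[p]) ^ n)) := by
      push_cast; ring
    rw [h]
    refine lt_of_le_of_lt (Padic.nonarchimedean _ _) (max_lt ?_ hn1)
    rwa [norm_neg]
  · have h : ((α + (β - α) * ((p : ℚ) ^ n / ((p : ℚ) ^ n + (q : ℚ) ^ n)) : ℚ) : ℚ_[q]) - b =
        -(b - (β : ℚ_[q])) +
        ((α : ℚ_[q]) - β) * ((q : ℚ_[q]) ^ n / ((q : ℚ_[q]) ^ n + (p : ℚ_[q]) ^ n)) := by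
      have hne : (p : ℚ_[q]) ^ n + (q : ℚ_[q]) ^ n ≠ 0 := by
        have h0 : ((p ^ n + q ^ n : ℕ) : ℚ_[q]) ≠ 0 := by
          rw [Nat.cast_ne_zero]; positivity
        push_cast at h0; exact h0
      have hne' : (q : ℚ_[q]) ^ n + (p : ℚ_[q]) ^ n ≠ 0 := by rwa [add_comm]
      push_cast
      field_simp
      ring
    rw [h]
    refine lt_of_le_of_lt (Padic.nonarchimedean _ _) (max_lt ?_ hn2)
    rwa [norm_neg]

end Pool.Agent.K3h97.FC.WA
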