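import Pool.Agent.K3h1.FC.Stm
import Pool.Agent.K3h97.FC.WACore

/-!
# Brick WA: weak approximation for two primes
-/

set_option autoImplicit false

namespace Pool.Agent.K3h97.FC.WA

theorem main : Pool.Agent.K3h1.FC.S_WA := by
  intro p q _ _ hpq a b ε hε
  exact wa p q hpq a b ε hε

end Pool.Agent.K3h97.FC.WA
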