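import Pool.Agent.K3h1.FC.Stm
import Pool.Agent.K3h97.FC.DISCore

/-!
# Brick DIS: `p`-adic points near the cusps
-/

set_option autoImplicit false

namespace Pool.Agent.K3h97.FC.DIS

theorem main : Pool.Agent.K3h1.FC.S_DIS := by
  intro p _ hp a b ha hb x y z w hx hy hz h1 h hw
  exact dis p hp a b ha hb x y z w hx hy hz h1 h hw

end Pool.Agent.K3h97.FC.DIS
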